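import Pool.Agent.W603.PV.Ext
import Pool.Agent.W602.GT.Defs

/-!
Algebraic extensions, for families over a curve.
-/

set_option autoImplicit false

namespace Pool.Agent.Q72.NA

open FF Pool.Agent.W603.LV Pool.Agent.W603.PV Pool.Agent.W602.GT
open scoped IntermediateField

theorem isAlg_of_hom {K A B : Type} [Field K] [Field A] [Field B] [Algebra A K] [Algebra B K]
    (i : A →+* B) (h : ∀ a, algebraMap B K (i a) = algebraMap A K a) {z : K}
    (hz : IsAlgebraic A z) : IsAlgebraic B z := by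
  obtain ⟨p, hp, hpz⟩ := hz
  refine ⟨p.map i, ?_, ?_⟩
  · intro h0
    exact hp ((Polynomial.map_eq_zero i).1 h0)
  · rw [Polynomial.aeval_def, Polynomial.eval₂_map]
    have h1 : (algebraMap B K).comp i = algebraMap A K := RingHom.ext h
    rw [h1, ← Polynomial.aeval_def, hpz]

theorem alg_fam {F K : Type} [Field F] [Algebra ℂ F] [IsFF ℂ F] [Field K] [Algebra ℂ K]
    [Algebra F K] [IsScalarTower ℂ F K] {ι : Type} (x : ι → K)
    (hF : ∀ z : K, IsAlgebraic (IntermediateField.adjoin F (Set.range x)) z)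
    (E : IntermediateField ℂ K) (hx : ∀ i, x i ∈ E) (t : F) (ht : Transcendental ℂ t)
    (htE : algebraMap F K t ∈ E) (z : K) : IsAlgebraic E z := by
  have h1 : ∀ c : F, IsAlgebraic E (algebraMap F K c) := by
    intro c
    have h2 : FiniteDimensional ℂ⟮t⟯ F := IsFF.finite ht
    have h3 : IsAlgebraic ℂ⟮t⟯ c := Algebra.IsAlgebraic.isAlgebraic c
    have h4 : IsAlgebraic ℂ⟮t⟯ (algebraMap F K c) := h3.algebraMap
    have hmem : ∀ y : ℂ⟮t⟯, ((algebraMap F K).comp (algebraMap ℂ⟮t⟯ F)) y ∈ E := by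
      intro y
      have h5 : algebraMap F K (y : F) ∈ (ℂ⟮t⟯).map (IsScalarTower.toAlgHom ℂ F K) :=
        ⟨y, y.2, rfl⟩
      rw [adjoin_algebraMap] at h5
      have h6 : ℂ⟮algebraMap F K t⟯ ≤ E := by
        rw [IntermediateField.adjoin_le_iff, Set.singleton_subset_iff]
        exact htE
      exact h6 h5
    exact isAlg_of_hom (((algebraMap F K).comp (algebraMap ℂ⟮t⟯ F)).codRestrict E hmem)
      (fun y => rfl) h4
  have h2 : ∀ y ∈ IntermediateField.adjoin F (Set.range x), IsAlgebraic E y := by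
    intro y hy
    refine IntermediateField.adjoin_induction F (p := fun y _ => IsAlgebraic E y)
      ?_ ?_ ?_ ?_ ?_ hy
    · rintro _ ⟨i, rfl⟩
      exact isAlgebraic_algebraMap (⟨x i, hx i⟩ : E)
    · exact h1
    · exact fun _ _ _ _ h3 h4 => h3.add h4
    · exact fun _ _ h => h.inv
    · exact fun _ _ _ _ h3 h4 => h3.mul h4
  let A : IntermediateField E K := algebraicClosure E K
  have hA : ∀ y : IntermediateField.adjoin F (Set.range x), algebraMap _ K y ∈ A := fun y =>
    (mem_algebraicClosure_iff).2 (h2 y y.2)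
  have h3 : IsAlgebraic A z :=
    isAlg_of_hom ((algebraMap (IntermediateField.adjoin F (Set.range x)) K).codRestrict A hA)
      (fun y => rfl) (hF z)
  exact h3.restrictScalars E

theorem lgt_mono {K : Type} [Field K] [Algebra ℂ K] {w : ℕ} {Bd Bd' : Place ℂ K → Prop}
    (h : ∀ P, Bd P → Bd' P) (hl : LogGeneralType ℂ K w Bd) : LogGeneralType ℂ K w Bd' := by
  obtain ⟨h1, N, h2, ω, h3, h4, h5, h6⟩ := hl
  exact ⟨h1, N, h2, ω, h3, h4, fun P hP hB j => h5 P hP (fun hb => hB (h P hb)) j, h6⟩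

/-- the number of zeros and poles -/
theorem card_supp {M : Type} [Field M] [Algebra ℂ M] [IsFF ℂ M] (f : M) (T : Finset (Place ℂ M))
    (hT : ∀ z ∈ T, z.ord f ≠ 0) : (T.card : ℤ) ≤ 2 * hgt ℂ f := by
  classical
  have h1 : ((T.filter fun z => z.ord f < 0).card : ℤ) ≤ ∑ i ∈ ({f} : Finset M), hgt ℂ i :=
    card_poles (k := ℂ) {f} id _ fun P hP =>
      ⟨f, Finset.mem_singleton_self _, (Finset.mem_filter.1 hP).2⟩
  have h2 : ((T.filter fun z => ¬ z.ord f < 0).card : ℤ) ≤ ∑ i ∈ ({f⁻¹} : Finset M), hgt ℂ i :=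
    card_poles (k := ℂ) {f⁻¹} id _ fun P hP => by
      refine ⟨f⁻¹, Finset.mem_singleton_self _, ?_⟩
      show P.ord f⁻¹ < 0
      rw [P.ord_inv]
      have h3 := hT P (Finset.mem_filter.1 hP).1
      have h4 := (Finset.mem_filter.1 hP).2
      omega
  rw [Finset.sum_singleton] at h1 h2
  rw [hgt_inv] at h2
  have h3 := Finset.card_filter_add_card_filter_not (s := T) (fun z => z.ord f < 0)
  have h4 : (T.card : ℤ) = (T.filter fun z => z.ord f < 0).card +
      (T.filter fun z => ¬ z.ord f < 0).card := by exact_mod_cast h3.symm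
  omega

end Pool.Agent.Q72.NA
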