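import Pool.Agent.Q72.NA.Eval

/-!
Evaluation, outside of the zeros of given elements.
-/

set_option autoImplicit false

namespace Pool.Agent.Q72.NA

open MvPolynomial

variable {N : ℕ} {F : Type} [Field F] [Algebra ℂ F]

theorem evalW {K : Type} [Field K] [Algebra ℂ K] [Algebra F K] [IsScalarTower ℂ F K]
    {a : Fin (N + 1) → K} (hrat : ∀ f : K, RatF (F := F) a f) (R : Subalgebra ℂ K) (hR : R.FG)
    (W : Finset K) (hW : ∀ w ∈ W, w ≠ 0) :
    ∃ (B : MvPolynomial (Fin (N + 1)) F) (E : ℕ), B.IsHomogeneous E ∧ aeval a B ≠ 0 ∧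
      ∀ (M : Type) [Field M] [Algebra ℂ M] [Algebra F M] [IsScalarTower ℂ F M]
        (u : Fin (N + 1) → M), PtF (F := F) a u → aeval u B ≠ 0 →
        ∃ φ : R →ₐ[ℂ] M, (∀ (r : R) (A C : MvPolynomial (Fin (N + 1)) F) (D : ℕ),
          A.IsHomogeneous D → C.IsHomogeneous D →
          (r : K) * aeval a C = aeval a A → φ r * aeval u C = aeval u A) ∧
          ∀ r : R, (r : K) ∈ W → φ r ≠ 0 := by
  classical
  obtain ⟨B, E, hB, hBa, hmain⟩ := evalF hrat R hR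
  have hr := fun w : W => hrat (w : K)
  choose A C D hA hC hne hval using hr
  have hAne : ∀ w : W, aeval a (A w) ≠ 0 := by
    intro w
    rw [← hval w]
    exact mul_ne_zero (hW w w.2) (hne w)
  refine ⟨B * ∏ w : W, A w, E + ∑ w : W, D w,
    hB.mul (IsHomogeneous.prod _ _ _ fun w _ => hA w), ?_, ?_⟩
  · rw [map_mul, map_prod]
    exact mul_ne_zero hBa (Finset.prod_ne_zero_iff.2 fun w _ => hAne w)
  · intro M _ _ _ _ u hu hBu
    rw [map_mul, map_prod] at hBu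
    obtain ⟨φ, hφ⟩ := hmain M u hu (left_ne_zero_of_mul hBu)
    refine ⟨φ, hφ, fun r hr h0 => ?_⟩
    have h1 := hφ r (A ⟨r, hr⟩) (C ⟨r, hr⟩) (D ⟨r, hr⟩) (hA _) (hC _) (hval ⟨r, hr⟩)
    rw [h0, zero_mul] at h1
    exact Finset.prod_ne_zero_iff.1 (right_ne_zero_of_mul hBu) ⟨r, hr⟩ (Finset.mem_univ _) h1.symm

end Pool.Agent.Q72.NA
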