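import Pool.Agent.Q72.NA.Eval
import Mathlib.FieldTheory.IntermediateField.Adjoin.Algebra

/-!
Function fields of projective varieties.
-/

set_option autoImplicit false

namespace Pool.Agent.Q72.NA

open MvPolynomial

variable {N : ℕ} {F : Type} [Field F]

theorem RatF.add {K : Type} [Field K] [Algebra F K] {a : Fin (N + 1) → K} {f g : K}
    (hf : RatF (F := F) a f) (hg : RatF (F := F) a g) : RatF (F := F) a (f + g) := by
  obtain ⟨A, C, D, h1, h2, h3, h4⟩ := hf
  obtain ⟨A', C', D', k1, k2, k3, k4⟩ := hg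
  refine ⟨A * C' + C * A', C * C', D + D', (h1.mul k2).add (h2.mul k1), h2.mul k2, ?_, ?_⟩
  · rw [map_mul]
    exact mul_ne_zero h3 k3
  · rw [map_mul, map_add, map_mul, map_mul, ← h4, ← k4]
    ring

theorem RatF.mul {K : Type} [Field K] [Algebra F K] {a : Fin (N + 1) → K} {f g : K}
    (hf : RatF (F := F) a f) (hg : RatF (F := F) a g) : RatF (F := F) a (f * g) := by
  obtain ⟨A, C, D, h1, h2, h3, h4⟩ := hf
  obtain ⟨A', C', D', k1, k2, k3, k4⟩ := hg
  refine ⟨A * A', C * C', D + D', h1.mul k1, h2.mul k2, ?_, ?_⟩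
  · rw [map_mul]
    exact mul_ne_zero h3 k3
  · rw [map_mul, map_mul, ← h4, ← k4]
    ring

theorem RatF.const {K : Type} [Field K] [Algebra F K] (a : Fin (N + 1) → K) (c : F) :
    RatF (F := F) a (algebraMap F K c) :=
  ⟨C c, 1, 0, isHomogeneous_C _ _, isHomogeneous_one _ _, by simp, by simp⟩

theorem RatF.inv {K : Type} [Field K] [Algebra F K] {a : Fin (N + 1) → K} {f : K}
    (hf : RatF (F := F) a f) : RatF (F := F) a f⁻¹ := by
  by_cases h0 : f = 0
  · rw [h0, inv_zero]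
    have := RatF.const (F := F) a 0
    rwa [map_zero] at this
  obtain ⟨A, C, D, h1, h2, h3, h4⟩ := hf
  refine ⟨C, A, D, h2, h1, ?_, ?_⟩
  · rw [← h4]
    exact mul_ne_zero h0 h3
  · rw [← h4, inv_mul_cancel_left₀ h0]

theorem ratF_of_adjoin {K : Type} [Field K] [Algebra F K] {a : Fin (N + 1) → K}
    (hK : IntermediateField.adjoin F {f : K | ∃ i j, a j ≠ 0 ∧ f = a i / a j} = ⊤) (f : K) :
    RatF (F := F) a f := by
  have hf : f ∈ IntermediateField.adjoin F {f : K | ∃ i j, a j ≠ 0 ∧ f = a i / a j} := by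
    rw [hK]
    exact IntermediateField.mem_top
  refine IntermediateField.adjoin_induction F (p := fun f _ => RatF (F := F) a f) ?_ ?_ ?_ ?_ ?_ hf
  · rintro _ ⟨i, j, hj, rfl⟩
    refine ⟨X i, X j, 1, isHomogeneous_X _ _, isHomogeneous_X _ _, ?_, ?_⟩
    · rwa [aeval_X]
    · rw [aeval_X, aeval_X, div_mul_cancel₀ _ hj]
  · exact fun c => RatF.const a c
  · exact fun _ _ _ _ h1 h2 => h1.add h2
  · exact fun _ _ h => h.inv
  · exact fun _ _ _ _ h1 h2 => h1.mul h2

theorem ess_of_adjoin {K : Type} [Field K] [Algebra F K] {a : Fin (N + 1) → K}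
    (hK : IntermediateField.adjoin F {f : K | ∃ i j, a j ≠ 0 ∧ f = a i / a j} = ⊤) :
    Algebra.EssFiniteType F K := by
  classical
  rw [← IntermediateField.fg_top_iff, ← hK]
  refine IntermediateField.fg_adjoin_of_finite ?_
  refine (Set.finite_range fun p : Fin (N + 1) × Fin (N + 1) => a p.1 / a p.2).subset ?_
  rintro _ ⟨i, j, _, rfl⟩
  exact ⟨(i, j), rfl⟩

end Pool.Agent.Q72.NA
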