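import Pool.Agent.Y192.OG.EAll
import Pool.Agent.Y192.FA.C6
import Pool.Agent.Y109.FG.Fnum

/-!
Curves in varieties of log general type over tori: the estimate for one curve.
-/

set_option autoImplicit false

namespace Pool.Agent.Q72.NA

open FF Pool.Agent.W603.LV Pool.Agent.W602.GT Pool.Agent.Y192.OG
open Pool.Agent.Y192 (FA.Curve)

/-- integral elements are regular -/
theorem ge_integral {k K : Type*} [Field k] [Field K] [Algebra k K] (P : Place k K) (y : K) (D : ℕ)
    (A : ℕ → K) (hA : ∀ i, Ge P 0 (A i)) (hD : A D = 1)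
    (h : ∑ i ∈ Finset.range (D + 1), A i * y ^ i = 0) : Ge P 0 y := by
  by_cases hy : y = 0
  · exact Or.inl hy
  by_contra hcon
  have he : P.ord y < 0 := by
    by_contra h1
    exact hcon (Or.inr (not_lt.1 h1))
  rw [Finset.sum_range_succ, hD, one_mul] at h
  have h2 : Ge P (((D : ℤ) - 1) * P.ord y) (∑ i ∈ Finset.range D, A i * y ^ i) := by
    refine Ge.sum _ _ fun i hi => ?_
    have hi' := Finset.mem_range.1 hi
    have h3 := (hA i).mul ((show Ge P (P.ord y) y from Or.inr le_rfl).pow i)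
    refine h3.mono ?_
    have h4 : (i : ℤ) ≤ D - 1 := by omega
    nlinarith
  have h5 : ∑ i ∈ Finset.range D, A i * y ^ i = -y ^ D := by linear_combination h
  rw [h5] at h2
  rcases h2 with h2 | h2
  · exact pow_ne_zero D hy (neg_eq_zero.1 h2)
  · rw [P.ord_neg, P.ord_pow] at h2
    nlinarith

variable {n : ℕ}

/-- values of monomials -/
theorem mono_eq {R L : Type} [CommRing R] [Algebra ℂ R] [Field L] [Algebra ℂ L] (φ : R →ₐ[ℂ] L)
    (j : Lau n →ₐ[ℂ] R) (y : Fin n → Lˣ)
    (hφ : ∀ i : Fin n, φ (j (AddMonoidAlgebra.single (Pi.single i 1) 1)) = (y i : L))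
    (m : Fin n → ℤ) : φ (j (AddMonoidAlgebra.single m 1)) = (xm y m : L) := by
  let U : Multiplicative (Fin n → ℤ) →* Lˣ :=
    MonoidHom.toHomUnits (((φ.comp j : Lau n →ₐ[ℂ] L) : Lau n →* L).comp
      (AddMonoidAlgebra.of ℂ (Fin n → ℤ)))
  have hU : ∀ m' : Fin n → ℤ, ((U (Multiplicative.ofAdd m') : Lˣ) : L) =
      φ (j (AddMonoidAlgebra.single m' 1)) := fun m' => rfl
  have hUi : ∀ i, U (Multiplicative.ofAdd (Pi.single i 1)) = y i := fun i =>
    Units.ext (by rw [hU]; exact hφ i)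
  have e : m = ∑ i, m i • (Pi.single i (1 : ℤ) : Fin n → ℤ) := by
    conv_lhs => rw [← Finset.univ_sum_single m]
    refine Finset.sum_congr rfl fun i _ => ?_
    rw [← Pi.single_smul, smul_eq_mul, mul_one]
  have h1 : U (Multiplicative.ofAdd m) = xm y m := by
    have h2 : U (Multiplicative.ofAdd m) =
        U (Multiplicative.ofAdd (∑ i, m i • (Pi.single i (1 : ℤ) : Fin n → ℤ))) := by rw [← e]
    rw [h2, ofAdd_sum, map_prod]
    unfold xm
    refine Finset.prod_congr rfl fun i _ => ?_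
    rw [ofAdd_zsmul, map_zpow, hUi]
  rw [← hU, h1]

/-- the estimate for one curve, with the derivation as a parameter -/
theorem data (K : Type) [Field K] [Algebra ℂ K] [Algebra.EssFiniteType ℂ K] (n d : ℕ)
    (x : Fin n → Kˣ)
    (halg : ∀ z : K, IsAlgebraic (IntermediateField.adjoin ℂ (Set.range fun i => (x i : K))) z)
    (hlgt : LogGeneralType ℂ K d (fun P => ∃ i, P.ord (x i : K) ≠ 0)) :
    ∃ (R : Subalgebra ℂ K) (j : Lau n →ₐ[ℂ] R) (G : Lau n) (μ : ℕ), R.FG ∧
      (∀ g, (j g : K) = ep x g) ∧ j G ≠ 0 ∧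
      ∀ (c : FA.Curve n) (φ : R →ₐ[ℂ] c.L), (∀ i : Fin n,
          φ (j (AddMonoidAlgebra.single (Pi.single i 1) 1)) = (c.x i : c.L)) →
        φ (j G) ≠ 0 → c.ch 0 ≤ μ * c.cnt (fun z => (c.bad z : ℤ)) 0 := by
  classical
  have h1 : ep x (1 : Lau n) = 1 := map_one _
  have hBd : (fun P : Place ℂ K => (∃ i, P.ord (x i : K) ≠ 0) ∨ P.ord (ep x (1 : Lau n)) = 1) =
      fun P => ∃ i, P.ord (x i : K) ≠ 0 := by
    funext P
    rw [h1, P.ord_one]
    simp
  obtain ⟨R, j, f, κ, s, h, Γ₀, hFG, hj, hint, hf, hrad, hleast, hom0, H2, H3, hv⟩ :=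
    alg_all K n d x 1 (by rw [h1]; exact one_ne_zero) halg (by rw [hBd]; exact hlgt)
  have hinj : Function.Injective (algebraMap R K) := Subtype.val_injective
  have hjx : ∀ i : Fin n, algebraMap R K (j (AddMonoidAlgebra.single (Pi.single i 1) 1)) =
      (x i : K) := by
    intro i
    have e1 : algebraMap R K (j (AddMonoidAlgebra.single (Pi.single i 1) 1)) =
      ep x (AddMonoidAlgebra.single (Pi.single i 1) 1) := hj _
    rw [e1, ep_single, one_smul]
    unfold xm
    rw [Finset.prod_eq_single i]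
    · rw [Pi.single_eq_same, zpow_one]
    · intro l _ hl
      rw [Pi.single_eq_of_ne hl, zpow_zero]
    · intro hi
      exact absurd (Finset.mem_univ i) hi
  obtain ⟨μ, G, hG, hmain⟩ := Pool.Agent.Y192.FA.E.curvesE (K := K) (R := R) hinj hint hf hrad
    hleast hom0 H2 (fun i => by rw [hjx]; exact H3 i)
  refine ⟨R, j, G, μ, hFG, hj, hG, ?_⟩
  intro c φ hφ hev'
  -- the map on Laurent polynomials
  have hφj : ∀ g : Lau n, φ (j g) = ((c.ev g : c.Mr) : c.L) := by
    intro g
    rw [Pool.Agent.Y192.FA.coe_ev]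
    have e1 : (φ.comp j : Lau n →ₐ[ℂ] c.L) = ep c.x := by
      apply AddMonoidAlgebra.algHom_ext
      · intro m
        rw [ep_single, one_smul]
        exact mono_eq φ j c.x hφ m
      · exact Subsingleton.elim _ _
    exact DFunLike.congr_fun e1 g
  have hev : c.ev G ≠ 0 := by
    intro h0
    apply hev'
    rw [hφj, h0]
    rfl
  have hreg : ∀ r : R, φ r ∈ c.Mr := by
    intro r z hz
    obtain ⟨p, hp, hpr⟩ := hint r
    have h2 : Ge z 0 (φ r) := by
      refine ge_integral z (φ r) p.natDegree (fun i => φ (j (p.coeff i))) (fun i => ?_) ?_ ?_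
      · show Ge z 0 (φ (j (p.coeff i)))
        rw [hφj]
        exact (c.ev (p.coeff i)).2 z hz
      · show φ (j (p.coeff p.natDegree)) = 1
        rw [hp.coeff_natDegree, map_one, map_one]
      · have h3 := congrArg φ hpr
        rw [Polynomial.eval₂_eq_sum_range, map_sum, map_zero] at h3
        rw [← h3]
        refine Finset.sum_congr rfl fun i _ => ?_
        rw [map_mul, map_pow]
        rfl
    exact h2
  let η : R →ₐ[ℂ] c.Mr := φ.codRestrict c.Mr hreg
  have hη : ∀ r, ((η r : c.Mr) : c.L) = φ r := fun r => rfl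
  refine hmain c ⟨η, fun g => Subtype.ext (by rw [hη, hφj]), fun i z hz h0 => ?_⟩ hev
  obtain ⟨o1, o2, o3, o4, o5, o6⟩ := (Pool.Agent.Y192.FA.a_ord n c).1 z trivial
  have hone : c.ord z (1 : c.Mr) = 0 := by
    rw [c.ord_of_ne one_ne_zero]
    show ((z.ord (1 : c.L) : ℤ) : WithTop ℤ) = 0
    rw [z.ord_one]
    rfl
  refine hv (fun r => c.ord z (η r)) ⟨?_, ?_, ?_, ?_⟩ ?_ ?_ i
  · show c.ord z (η 1) = 0
    rw [map_one]
    exact hone
  · intro a b
    show c.ord z (η (a * b)) = _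
    rw [map_mul]
    exact o1 _ _
  · intro a b
    show _ ≤ c.ord z (η (a + b))
    rw [map_add]
    exact o2 _ _
  · intro a
    exact o4 hz _
  · show c.ord z (η (j f)) = 1
    rw [show η (j f) = c.ev f from Subtype.ext (by rw [hη, hφj])]
    exact h0
  · show c.ord z (η (j 1)) ≠ 1
    rw [map_one, map_one, hone]
    exact zero_ne_one

end Pool.Agent.Q72.NA
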