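import Pool.Agent.TH143.LG.Laur
import Pool.Agent.W603.PV.Ext

/-!
Maps from the punctured line to itself.
-/

set_option autoImplicit false

namespace Pool.Agent.Q72.NA

open FF Pool.Agent.W603.LV Pool.Agent.W603.PV Pool.Agent.W619.PQ
open scoped IntermediateField

instance isFF_ratFunc : IsFF ℂ (RatFunc ℂ) := by
  refine IsFF.of_finite (f := (RatFunc.X : RatFunc ℂ)) RatFunc.transcendental_X ?_
  rw [RatFunc.adjoin_X]
  refine ⟨⟨{1}, ?_⟩⟩
  rw [eq_top_iff]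
  intro x _
  have h : x = (⟨x, IntermediateField.mem_top⟩ : (⊤ : IntermediateField ℂ (RatFunc ℂ))) •
      (1 : RatFunc ℂ) := by
    rw [IntermediateField.smul_def, smul_eq_mul, mul_one]
  rw [h]
  exact Submodule.smul_mem _ _ (Submodule.subset_span (by simp))

/-- The zero and the pole of the coordinate on the projective line. -/
noncomputable def zeroInf : Finset (Place ℂ (RatFunc ℂ)) :=
  (finite_support (k := ℂ) (RatFunc.X : RatFunc ℂ)).toFinset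

theorem not_mem_zeroInf {z : Place ℂ (RatFunc ℂ)} (hz : z ∉ zeroInf) :
    z.ord (RatFunc.X : RatFunc ℂ) = 0 := by
  by_contra h
  exact hz (by
    unfold zeroInf
    simpa using h)

theorem exists_gm {M : Type} [Field M] [Algebra ℂ M] [IsFF ℂ M] (S : Finset (Place ℂ M))
    (hS : S.Nonempty) (h : canDeg ℂ M + S.card ≤ 0) (m : ℕ) (hm : 0 < m) :
    ∃ σ : M →ₐ[ℂ] RatFunc ℂ,
      (∀ f : M, (∀ z : Place ℂ M, z ∉ S → z.ord f = 0) →
        ∀ z : Place ℂ (RatFunc ℂ), z ∉ zeroInf → z.ord (σ f) = 0) ∧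
      ∀ f : M, Transcendental ℂ f → (m : ℤ) ≤ hgt ℂ (σ f) := by
  obtain ⟨t, ht, hlau⟩ := Pool.Agent.TH143.LG.laurent hS h
  have htr : Transcendental ℂ t := transcendental_of_top ht
  obtain ⟨Y, hY⟩ : ∃ Y : RatFunc ℂ, Y = RatFunc.X ^ m := ⟨_, rfl⟩
  have hX0 : (RatFunc.X : RatFunc ℂ) ≠ 0 := RatFunc.X_ne_zero
  have hYtr : Transcendental ℂ Y := by
    rw [hY]
    exact RatFunc.transcendental_X.pow hm
  obtain ⟨e1, he1⟩ : ∃ e1 : RatFunc ℂ ≃ₐ[ℂ] ℂ⟮t⟯, ((e1 RatFunc.X : ℂ⟮t⟯) : M) = t :=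
    ⟨RatFunc.algEquivOfTranscendental t htr, by simp⟩
  obtain ⟨e2, he2⟩ : ∃ e2 : RatFunc ℂ ≃ₐ[ℂ] ℂ⟮Y⟯, ((e2 RatFunc.X : ℂ⟮Y⟯) : RatFunc ℂ) = Y :=
    ⟨RatFunc.algEquivOfTranscendental Y hYtr, by simp⟩
  let e3 : M ≃ₐ[ℂ] ℂ⟮t⟯ :=
    (IntermediateField.topEquiv.symm).trans (IntermediateField.equivOfEq ht.symm)
  have he3 : ∀ x : M, ((e3 x : ℂ⟮t⟯) : M) = x := fun x => rfl
  let σ : M →ₐ[ℂ] RatFunc ℂ :=
    (ℂ⟮Y⟯.val.comp (e2 : RatFunc ℂ →ₐ[ℂ] ℂ⟮Y⟯)).comp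
      ((e1.symm : ℂ⟮t⟯ →ₐ[ℂ] RatFunc ℂ).comp (e3 : M →ₐ[ℂ] ℂ⟮t⟯))
  have hσ : ∀ x, σ x = ((e2 (e1.symm (e3 x)) : ℂ⟮Y⟯) : RatFunc ℂ) := fun x => rfl
  have hσt : σ t = Y := by
    have h1 : e3 t = e1 RatFunc.X := Subtype.ext (by rw [he3, he1])
    rw [hσ, h1, AlgEquiv.symm_apply_apply, he2]
  have hσm : ∀ x, σ x ∈ ℂ⟮Y⟯ := fun x => by
    rw [hσ]
    exact Subtype.property _
  have hreg : ∀ f : M, (∀ z : Place ℂ M, z ∉ S → z.ord f = 0) →
      ∀ z : Place ℂ (RatFunc ℂ), z ∉ zeroInf → Ge z 0 (σ f) := by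
    intro f hf z hz
    obtain ⟨l, p, hp⟩ := hlau f fun P hP => by
      by_contra hcon
      rw [hf P hcon] at hP
      exact lt_irrefl _ hP
    have h1 := congrArg σ hp
    rw [map_mul, map_pow, hσt, ← Polynomial.aeval_algHom_apply, hσt] at h1
    have hzX := not_mem_zeroInf hz
    have hzY : z.ord Y = 0 := by rw [hY, z.ord_pow, hzX, mul_zero]
    have hY0 : Y ≠ 0 := by
      rw [hY]
      exact pow_ne_zero _ hX0
    by_cases h0 : σ f = 0
    · exact Or.inl h0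
    · right
      have h2 : Ge z 0 (Polynomial.aeval Y p) :=
        Pool.Agent.TH143.LG.ge_aeval (Or.inr hzY.ge) p
      rw [← h1] at h2
      have h3 := h2.resolve_left (mul_ne_zero h0 (pow_ne_zero _ hY0))
      rw [z.ord_mul h0 (pow_ne_zero _ hY0), z.ord_pow, hzY, mul_zero, add_zero] at h3
      exact h3
  refine ⟨σ, fun f hf z hz => ?_, fun f hf => ?_⟩
  · by_cases h0 : f = 0
    · rw [h0, map_zero, z.ord_zero]
    have h1 := (hreg f hf z hz).resolve_left ((map_ne_zero σ).2 h0)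
    have h2 := (hreg f⁻¹ (fun P hP => by rw [P.ord_inv, hf P hP, neg_zero]) z hz).resolve_left
      ((map_ne_zero σ).2 (inv_ne_zero h0))
    rw [map_inv₀, z.ord_inv] at h2
    omega
  · have hσf : Transcendental ℂ (σ f) := by
      intro halg
      exact hf ((isAlgebraic_algHom_iff σ σ.injective).1 halg)
    have hle : ℂ⟮σ f⟯ ≤ ℂ⟮Y⟯ := by
      rw [IntermediateField.adjoin_le_iff, Set.singleton_subset_iff]
      exact hσm f
    have : FiniteDimensional ℂ⟮σ f⟯ (RatFunc ℂ) := IsFF.finite hσf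
    have h1 := IntermediateField.finrank_le_of_le_left hle
    have h2 := hgt_eq_finrank (k := ℂ) hσf
    have h3 := hgt_eq_finrank (k := ℂ) hYtr
    have h4 : hgt ℂ Y = m * hgt ℂ (RatFunc.X : RatFunc ℂ) := by
      rw [hY, hgt_pow hX0]
    have h5 := hgt_eq_finrank (k := ℂ) (RatFunc.transcendental_X (K := ℂ))
    have : FiniteDimensional ℂ⟮(RatFunc.X : RatFunc ℂ)⟯ (RatFunc ℂ) :=
      IsFF.finite RatFunc.transcendental_X
    have h6 : 0 < Module.finrank ℂ⟮(RatFunc.X : RatFunc ℂ)⟯ (RatFunc ℂ) := Module.finrank_pos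
    have h7 : (m : ℤ) ≤ m * hgt ℂ (RatFunc.X : RatFunc ℂ) := by
      rw [h5]
      have h8 : (1 : ℤ) ≤ Module.finrank ℂ⟮(RatFunc.X : RatFunc ℂ)⟯ (RatFunc ℂ) := by
        exact_mod_cast h6
      nlinarith [Int.natCast_nonneg m]
    rw [h2]
    rw [← h4, h3] at h7
    refine h7.trans ?_
    exact_mod_cast h1

end Pool.Agent.Q72.NA
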