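import Pool.Agent.Q72.NA.Pt
import Pool.Agent.Q72.NA.Gm
import Pool.Agent.Q72.NA.Rat

/-!
The linear bound.
-/

set_option autoImplicit false

namespace Pool.Agent.Q72.NA

open MvPolynomial FF Pool.Agent.W603.LV Pool.Agent.W603.PV Pool.Agent.W602.GT
open Pool.Agent.Y192.OG Pool.Agent.Y192

theorem canDeg_of_neg {M : Type} [Field M] [Algebra ℂ M] [IsFF ℂ M] (h : canDeg ℂ M < 0) :
    canDeg ℂ M = -2 := by
  obtain ⟨t, ht⟩ := Pool.Agent.TH143.GE.rational_of_neg (k := ℂ) (K := M) h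
  exact Pool.Agent.W619.PQ.canDeg_rational ht

/-- the height of a ratio of two coordinates -/
theorem hgt_ratio_le {N : ℕ} {M : Type} [Field M] [Algebra ℂ M] [IsFF ℂ M] (u : Fin (N + 1) → M)
    {l : Fin (N + 1)} (hl : u l ≠ 0) (j : Fin (N + 1)) : hgt ℂ (u j / u l) ≤ pht ℂ u := by
  classical
  obtain ⟨T, hT⟩ := exists_supp (k := ℂ) Finset.univ u
  have h1 : ∀ j, ∀ P : Place ℂ M, P.ord (u j) ≠ 0 → P ∈ T := fun j => hT j (Finset.mem_univ j)
  have h1' : ∀ P : Place ℂ M, P.ord (u j / u l) ≠ 0 → P ∈ T := by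
    intro P hP
    by_contra hcon
    apply hP
    by_cases hj : u j = 0
    · rw [hj, zero_div, P.ord_zero]
    have h2 : P.ord (u j) = 0 := by by_contra h; exact hcon (h1 j P h)
    have h3 : P.ord (u l) = 0 := by by_contra h; exact hcon (h1 l P h)
    rw [P.ord_div hj hl, h2, h3]; rfl
  have h2 : pht ℂ u = ∑ P ∈ T, (- pord P u) := by
    unfold pht
    rw [finsum_eq_sum_of_support_subset (s := T), Finset.sum_neg_distrib]
    intro P hP
    by_contra hcon
    apply hP
    obtain ⟨i, hi, h⟩ := exists_pord P ⟨l, hl⟩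
    simp only
    rw [← h]
    by_contra h'; exact hcon (h1 i P h')
  have h3 : ∑ P ∈ T, P.ord (u l) = 0 := sum_ord_finset _ T (h1 l)
  have h4 : ∑ P ∈ T, (- pord P u) = ∑ P ∈ T, (- pord P u + P.ord (u l)) := by
    rw [Finset.sum_add_distrib, h3, add_zero]
  rw [h2, h4, hgt_finset _ T h1']
  refine Finset.sum_le_sum fun P _ => ?_
  have h5 := pord_le P hl
  refine max_le ?_ (by omega)
  by_cases hj : u j = 0
  · rw [hj, zero_div, P.ord_zero]
    omega
  · have h6 := pord_le P hj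
    rw [P.ord_div hj hl]
    omega

/-- the linear bound, from the bound of `coreF` -/
theorem lin_of {N n : ℕ} {K : Type} [Field K] [Algebra ℂ K] (a : Fin (N + 1) → K)
    (f : Fin (n + 1) → MvPolynomial (Fin (N + 1)) ℂ) (B : MvPolynomial (Fin (N + 1)) ℂ) (A : ℕ)
    (hB : ∀ (M : Type) [Field M] [Algebra ℂ M] [IsFF ℂ M] (u : Fin (N + 1) → M),
      PtF (F := ℂ) a u → aeval u B ≠ 0 → (∀ i, aeval u (f i) ≠ 0) ∧
        ∀ S : Finset (Place ℂ M), (∀ z : Place ℂ M, z ∉ S → ∀ i,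
            z.ord (aeval u (f i)) = z.ord (aeval u (f 0))) →
          pht ℂ u ≤ A * max (2 * canDeg ℂ M + 3 * S.card) 0)
    (M : Type) [Field M] [Algebra ℂ M] [IsFF ℂ M] (u : Fin (N + 1) → M)
    (hu : PtF (F := ℂ) a u) (hBu : aeval u B ≠ 0) (S : Finset (Place ℂ M))
    (hS : ∀ z : Place ℂ M, z ∉ S → ∀ i, z.ord (aeval u (f i)) = z.ord (aeval u (f 0)))
    (hne : ∃ i j, u j ≠ 0 ∧ Transcendental ℂ (u i / u j)) :
    pht ℂ u ≤ (5 * A : ℕ) * (canDeg ℂ M + S.card) := by
  obtain ⟨i, j, hj, hij⟩ := hne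
  obtain ⟨hf, h1⟩ := hB M u hu hBu
  have h2 := h1 S hS
  have hpos : 0 < pht ℂ u := by
    refine lt_of_lt_of_le ?_ (hgt_ratio_le u hj i)
    rw [hgt_eq_finrank hij]
    have : FiniteDimensional (IntermediateField.adjoin ℂ {u i / u j}) M := IsFF.finite hij
    have h3 : 0 < Module.finrank (IntermediateField.adjoin ℂ {u i / u j}) M := Module.finrank_pos
    exact_mod_cast h3
  have hcan : -2 ≤ canDeg ℂ M := by
    by_cases hc : canDeg ℂ M < 0
    · rw [canDeg_of_neg hc]
    · omega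
  by_cases hχ : 0 < canDeg ℂ M + S.card
  · refine h2.trans ?_
    push_cast
    have h3 : max (2 * canDeg ℂ M + 3 * (S.card : ℤ)) 0 ≤ 5 * (canDeg ℂ M + S.card) := by
      refine max_le ?_ ?_ <;> omega
    calc (A : ℤ) * max (2 * canDeg ℂ M + 3 * (S.card : ℤ)) 0
        ≤ A * (5 * (canDeg ℂ M + S.card)) := mul_le_mul_of_nonneg_left h3 (Int.natCast_nonneg _)
      _ = 5 * A * (canDeg ℂ M + S.card) := by ring
  · exfalso
    rw [not_lt] at hχ
    by_cases hSe : S.Nonempty
    · -- the punctured line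
      obtain ⟨b, hb⟩ : ∃ b : ℤ, b = A * max (2 * canDeg ℂ (RatFunc ℂ) + 3 * (zeroInf.card : ℤ)) 0 :=
        ⟨_, rfl⟩
      obtain ⟨m, hm⟩ : ∃ m : ℕ, b < m := ⟨(b + 1).toNat, by omega⟩
      have hb0 : 0 ≤ b := by
        rw [hb]
        exact mul_nonneg (Int.natCast_nonneg _) (le_max_right _ _)
      have hm0 : 0 < m := by omega
      obtain ⟨σ, hσ1, hσ2⟩ := exists_gm S hSe hχ m hm0
      have hval : ∀ p : MvPolynomial (Fin (N + 1)) ℂ, aeval (fun i => σ (u i)) p = σ (aeval u p) := by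
        intro p
        have e1 : (aeval (fun i => σ (u i)) : MvPolynomial (Fin (N + 1)) ℂ →ₐ[ℂ] RatFunc ℂ) =
            σ.comp (aeval u) := by
          apply MvPolynomial.algHom_ext
          intro i
          simp
        rw [e1]
        rfl
      obtain ⟨-, h4⟩ := hB (RatFunc ℂ) (fun i => σ (u i)) (fun G D hG hGa => by
        rw [hval, hu G D hG hGa, map_zero]) (by
          rw [hval]
          exact (map_ne_zero σ).2 hBu)
      have h5 := h4 zeroInf (fun z hz i => by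
        have h6 := hσ1 (aeval u (f i) / aeval u (f 0)) (fun z hz => by
          rw [z.ord_div (hf i) (hf 0), hS z hz i, sub_self]) z hz
        rw [map_div₀, z.ord_div ((map_ne_zero σ).2 (hf i)) ((map_ne_zero σ).2 (hf 0))] at h6
        rw [hval, hval]
        omega)
      have h7 := hgt_ratio_le (fun i => σ (u i)) (l := j) ((map_ne_zero σ).2 hj) i
      have h8 := hσ2 _ hij
      rw [map_div₀] at h8
      have h9 := (h8.trans h7).trans h5
      omega
    · rw [Finset.not_nonempty_iff_eq_empty] at hSe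
      rw [hSe] at h2 hχ
      have h3 : max (2 * canDeg ℂ M + 3 * ((∅ : Finset (Place ℂ M)).card : ℤ)) 0 = 0 := by
        rw [Finset.card_empty] at hχ ⊢
        exact max_eq_right (by push_cast at hχ ⊢; omega)
      rw [h3, mul_zero] at h2
      omega

end Pool.Agent.Q72.NA
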