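import Pool.Agent.Y987.OG.Eval

/-!
Evaluation of finitely generated rings of functions on a projective variety over a field which
contains the complex numbers, at points over fields.
-/

set_option autoImplicit false

namespace Pool.Agent.Q72.NA

open MvPolynomial

section

variable {N : ℕ} {F : Type} [Field F] [Algebra ℂ F]

/-- `f` is a quotient of values of forms of the same degree -/
def RatF {K : Type} [Field K] [Algebra F K] (a : Fin (N + 1) → K) (f : K) : Prop :=
  ∃ (A C : MvPolynomial (Fin (N + 1)) F) (D : ℕ), A.IsHomogeneous D ∧ C.IsHomogeneous D ∧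
    aeval a C ≠ 0 ∧ f * aeval a C = aeval a A

/-- `u` is a point of the variety with generic point `a` -/
def PtF {K : Type} [Field K] [Algebra F K] (a : Fin (N + 1) → K) {M : Type} [Field M] [Algebra F M]
    (u : Fin (N + 1) → M) : Prop :=
  ∀ (G : MvPolynomial (Fin (N + 1)) F) (D : ℕ), G.IsHomogeneous D → aeval a G = 0 → aeval u G = 0

theorem hom_pow {B : MvPolynomial (Fin (N + 1)) F} {E : ℕ} (hB : B.IsHomogeneous E) (T : ℕ) :
    (B ^ T).IsHomogeneous (T * E) := by
  have := hB.pow T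
  rwa [mul_comm] at this

/-- homogenisation -/
theorem exists_homF {σ : Type} {A : σ → MvPolynomial (Fin (N + 1)) F}
    {B : MvPolynomial (Fin (N + 1)) F} {E : ℕ}
    (hA : ∀ s, (A s).IsHomogeneous E) (hB : B.IsHomogeneous E) (p : MvPolynomial σ ℂ) :
    ∃ (T : ℕ) (H : MvPolynomial (Fin (N + 1)) F), H.IsHomogeneous (T * E) ∧
      ∀ (M : Type) [Field M] [Algebra ℂ M] [Algebra F M] [IsScalarTower ℂ F M]
        (u : Fin (N + 1) → M), aeval u B ≠ 0 → aeval u H = aeval u B ^ T *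
          aeval (fun s => aeval u (A s) / aeval u B) p := by
  induction p using MvPolynomial.induction_on with
  | C c =>
    refine ⟨0, C (algebraMap ℂ F c), by simpa using isHomogeneous_C _ _, fun M _ _ _ _ u _ => ?_⟩
    rw [aeval_C, aeval_C, pow_zero, one_mul, ← IsScalarTower.algebraMap_apply]
  | add p q hp hq =>
    obtain ⟨T, H, h1, h2⟩ := hp
    obtain ⟨T₁, H₁, k1, k2⟩ := hq
    refine ⟨T + T₁, H * B ^ T₁ + H₁ * B ^ T, ?_, fun M _ _ _ _ u hM => ?_⟩
    · rw [add_mul]
      refine (h1.mul (hom_pow hB T₁)).add ?_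
      have := k1.mul (hom_pow hB T)
      rwa [add_comm (T₁ * E)] at this
    · rw [map_add, map_mul, map_mul, map_pow, map_pow, h2 M u hM, k2 M u hM, map_add]
      ring
  | mul_X p s hp =>
    obtain ⟨T, H, h1, h2⟩ := hp
    refine ⟨T + 1, H * A s, ?_, fun M _ _ _ _ u hM => ?_⟩
    · rw [Nat.succ_mul]
      exact h1.mul (hA s)
    · rw [map_mul, h2 M u hM, map_mul, aeval_X, pow_succ]
      field_simp

theorem evalF {K : Type} [Field K] [Algebra ℂ K] [Algebra F K] [IsScalarTower ℂ F K]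
    {a : Fin (N + 1) → K} (hrat : ∀ f : K, RatF (F := F) a f) (R : Subalgebra ℂ K) (hR : R.FG) :
    ∃ (B : MvPolynomial (Fin (N + 1)) F) (E : ℕ), B.IsHomogeneous E ∧ aeval a B ≠ 0 ∧
      ∀ (M : Type) [Field M] [Algebra ℂ M] [Algebra F M] [IsScalarTower ℂ F M]
        (u : Fin (N + 1) → M), PtF (F := F) a u → aeval u B ≠ 0 →
        ∃ φ : R →ₐ[ℂ] M, ∀ (r : R) (A C : MvPolynomial (Fin (N + 1)) F) (D : ℕ),
          A.IsHomogeneous D → C.IsHomogeneous D →
          (r : K) * aeval a C = aeval a A → φ r * aeval u C = aeval u A := by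
  classical
  obtain ⟨S, hS⟩ := hR
  have hrat := fun s : S => hrat (s : K)
  choose A₀ C₀ D hA hC hne hval using hrat
  set B : MvPolynomial (Fin (N + 1)) F := ∏ s : S, C₀ s with hBdef
  set E := ∑ s : S, D s with hE
  have hB : B.IsHomogeneous E := IsHomogeneous.prod _ _ _ fun s _ => hC s
  have hBne : aeval a B ≠ 0 := by
    rw [hBdef, map_prod]
    exact Finset.prod_ne_zero_iff.2 fun s _ => hne s
  set A : S → MvPolynomial (Fin (N + 1)) F := fun s => A₀ s * ∏ t ∈ Finset.univ.erase s, C₀ t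
    with hAdef
  have hAh : ∀ s, (A s).IsHomogeneous E := by
    intro s
    have h := (hA s).mul (IsHomogeneous.prod (Finset.univ.erase s) C₀ D fun t _ => hC t)
    rwa [Finset.add_sum_erase _ _ (Finset.mem_univ s)] at h
  have hAval : ∀ s : S, aeval a (A s) / aeval a B = (s : K) := by
    intro s
    rw [div_eq_iff hBne]
    have h1 : B = C₀ s * ∏ t ∈ Finset.univ.erase s, C₀ t :=
      (Finset.mul_prod_erase _ _ (Finset.mem_univ s)).symm
    rw [h1]
    simp only [hAdef]
    rw [map_mul, map_mul, ← hval s]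
    ring
  set ψ : MvPolynomial S ℂ →ₐ[ℂ] K := aeval (fun s : S => (s : K)) with hψ
  have hRr : R = ψ.range := by
    rw [← hS, hψ, ← Algebra.adjoin_range_eq_range_aeval]
    congr 1
    simp
  subst hRr
  refine ⟨B, E, hB, hBne, ?_⟩
  intro M _ _ _ _ u hmem hM
  set φ₀ : MvPolynomial S ℂ →ₐ[ℂ] M :=
    aeval (fun s => aeval u (A s) / aeval u B) with hφ₀
  have hψ' : ψ = aeval (fun s => aeval a (A s) / aeval a B) := by
    rw [hψ]
    congr 1
    funext s
    exact (hAval s).symm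
  have hker : ∀ p : MvPolynomial S ℂ, ψ p = 0 → φ₀ p = 0 := by
    intro p hp
    obtain ⟨T, H, h1, h2⟩ := exists_homF hAh hB p
    have h3 : aeval a H = 0 := by
      rw [h2 K a hBne, ← hψ', hp, mul_zero]
    have h4 := hmem H _ h1 h3
    rw [h2 M u hM] at h4
    exact (mul_eq_zero.1 h4).resolve_left (pow_ne_zero _ hM)
  let e := Ideal.quotientKerEquivRange (R := ℂ) ψ
  let φ₁ : (MvPolynomial S ℂ ⧸ RingHom.ker ψ) →ₐ[ℂ] M :=
    Ideal.Quotient.liftₐ (RingHom.ker ψ) φ₀ fun p hp => hker p hp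
  refine ⟨φ₁.comp (e.symm : ψ.range →ₐ[ℂ] _), ?_⟩
  rintro ⟨r, p, hp⟩ A' C' G hA' hC' hr
  have hφ : φ₁.comp (e.symm : ψ.range →ₐ[ℂ] _) ⟨r, p, hp⟩ = φ₀ p := by
    have h1 : e (Ideal.Quotient.mk _ p) = ⟨r, p, hp⟩ := by
      apply Subtype.ext
      exact hp
    show φ₁ (e.symm ⟨r, p, hp⟩) = φ₀ p
    rw [← h1, AlgEquiv.symm_apply_apply]
    rfl
  rw [hφ]
  obtain ⟨T, H, h1, h2⟩ := exists_homF hAh hB p
  have hp' : ψ p = r := hp
  have h3 : (H * C' - A' * B ^ T).IsHomogeneous (T * E + G) := by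
    refine (h1.mul hC').sub ?_
    have := hA'.mul (hom_pow hB T)
    rwa [add_comm G] at this
  have h4 : aeval a (H * C' - A' * B ^ T) = 0 := by
    rw [map_sub, map_mul, map_mul, map_pow, h2 K a hBne, ← hψ', hp']
    simp only at hr
    rw [← hr]
    ring
  have h5 := hmem _ _ h3 h4
  rw [map_sub, map_mul, map_mul, map_pow, h2 M u hM] at h5
  have h6 : aeval u B ^ T ≠ 0 := pow_ne_zero _ hM
  have h7 : aeval u B ^ T * (φ₀ p * aeval u C' - aeval u A') = 0 := by
    rw [← h5]
    ring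
  have h8 := (mul_eq_zero.1 h7).resolve_left h6
  exact sub_eq_zero.1 h8

end

end Pool.Agent.Q72.NA
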